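import Mathlib

/-!
# Zero intersections between eigenspace sums for Leonard systems (MP_105763_al)
-/

open Matrix Polynomial

namespace Pool.Agent.Results.MP_105763_al.ZeroInter

variable {K : Type*} [Field K] {d : ℕ}

/-- `E` is an ordering of the primitive idempotents of the multiplicity-free matrix `A`: there are
mutually distinct scalars `θ i` such that the `E i` are nonzero mutually orthogonal idempotents
with sum `1` and `A = ∑ i, θ i • E i`. -/
def IsPrimitiveIdempotents (A : Matrix (Fin (d + 1)) (Fin (d + 1)) K)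
    (E : Fin (d + 1) → Matrix (Fin (d + 1)) (Fin (d + 1)) K) : Prop :=
  ∃ θ : Fin (d + 1) → K, Function.Injective θ ∧ (∀ i, E i ≠ 0) ∧
    (∀ i j, E i * E j = if i = j then E i else 0) ∧ ∑ i, E i = 1 ∧ A = ∑ i, θ i • E i

/-- The products `F i * B * F j` vanish for `|i - j| > 1` and are nonzero for `|i - j| = 1`. -/
def IsTridiag (B : Matrix (Fin (d + 1)) (Fin (d + 1)) K)
    (F : Fin (d + 1) → Matrix (Fin (d + 1)) (Fin (d + 1)) K) : Prop :=
  ∀ i j : Fin (d + 1),
    (1 < |(i.val : ℤ) - (j.val : ℤ)| → F i * B * F j = 0) ∧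
    (|(i.val : ℤ) - (j.val : ℤ)| = 1 → F i * B * F j ≠ 0)

/-- Leonard systems in the algebra of `(d+1) × (d+1)` matrices over `K`. -/
def IsLeonardSystem (A As : Matrix (Fin (d + 1)) (Fin (d + 1)) K)
    (E Es : Fin (d + 1) → Matrix (Fin (d + 1)) (Fin (d + 1)) K) : Prop :=
  IsPrimitiveIdempotents A E ∧ IsPrimitiveIdempotents As Es ∧ IsTridiag As E ∧ IsTridiag A Es

/-- The subspace `F V` of `V = K^{d+1}`. -/
def img (F : Matrix (Fin (d + 1)) (Fin (d + 1)) K) : Submodule K (Fin (d + 1) → K) :=
  LinearMap.range F.mulVecLin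

lemma idem_apply {E : Fin (d + 1) → Matrix (Fin (d + 1)) (Fin (d + 1)) K}
    (hE : ∀ i j, E i * E j = if i = j then E i else 0) (i j : Fin (d + 1))
    (x : Fin (d + 1) → K) : E i *ᵥ (E j *ᵥ x) = if i = j then E i *ᵥ x else 0 := by
  rw [mulVec_mulVec, hE]
  split_ifs <;> simp

lemma sum_apply {E : Fin (d + 1) → Matrix (Fin (d + 1)) (Fin (d + 1)) K}
    (h1 : ∑ i, E i = 1) (x : Fin (d + 1) → K) : x = ∑ i, E i *ᵥ x := by
  have : (∑ i, E i) *ᵥ x = x := by rw [h1, one_mulVec]
  rw [Matrix.sum_mulVec] at this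
  exact this.symm

/-- Each primitive idempotent has rank one. -/
lemma rank_one {E : Fin (d + 1) → Matrix (Fin (d + 1)) (Fin (d + 1)) K}
    (hne : ∀ i, E i ≠ 0) (hE : ∀ i j, E i * E j = if i = j then E i else 0)
    (i : Fin (d + 1)) (x y : Fin (d + 1) → K) (hx : E i *ᵥ x ≠ 0) :
    ∃ c : K, E i *ᵥ y = c • (E i *ᵥ x) := by
  classical
  have hex : ∀ j, ∃ z, E j *ᵥ z ≠ 0 := by
    intro j
    by_contra hcon
    push Not at hcon
    apply hne j
    ext a b
    have := congrFun (hcon (Pi.single b 1)) a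
    simpa using this
  choose z hz using hex
  let b : Fin (d + 1) → (Fin (d + 1) → K) := fun j => if j = i then E i *ᵥ x else E j *ᵥ z j
  have hb0 : ∀ j, b j ≠ 0 := by
    intro j
    simp only [b]
    split_ifs with h
    · exact hx
    · exact hz j
  have hbE : ∀ k j, E k *ᵥ b j = if k = j then b j else 0 := by
    intro k j
    simp only [b]
    split_ifs with h1 h2 h2
    · subst h1; subst h2; rw [idem_apply hE]; simp
    · subst h1; rw [idem_apply hE]; simp [h2]
    · subst h2; rw [idem_apply hE]; simp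
    · rw [idem_apply hE]; simp [h2]
  have hli : LinearIndependent K b := by
    rw [Fintype.linearIndependent_iff]
    intro g hg k
    have h2 := congrArg (fun v => E k *ᵥ v) hg
    simp only [mulVec_sum, mulVec_smul, hbE, mulVec_zero, smul_ite, smul_zero,
      Finset.sum_ite_eq, Finset.mem_univ, if_true] at h2
    exact (smul_eq_zero.mp h2).resolve_right (hb0 k)
  have hspan : Submodule.span K (Set.range b) = ⊤ := by
    apply hli.span_eq_top_of_card_eq_finrank
    simp
  have hy : y ∈ Submodule.span K (Set.range b) := by rw [hspan]; trivial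
  rw [Submodule.mem_span_range_iff_exists_fun] at hy
  obtain ⟨c, hc⟩ := hy
  refine ⟨c i, ?_⟩
  rw [← hc]
  simp only [mulVec_sum, mulVec_smul, hbE, smul_ite, smul_zero, Finset.sum_ite_eq,
    Finset.mem_univ, if_true]
  simp [b]

lemma aeval_left {A : Matrix (Fin (d + 1)) (Fin (d + 1)) K}
    {E : Fin (d + 1) → Matrix (Fin (d + 1)) (Fin (d + 1)) K} {θ : Fin (d + 1) → K}
    (hE : ∀ i j, E i * E j = if i = j then E i else 0) (hA : A = ∑ i, θ i • E i)
    (j : Fin (d + 1)) (p : K[X]) : E j * aeval A p = p.eval (θ j) • E j := by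
  have h1 : E j * A = θ j • E j := by
    rw [hA, Finset.mul_sum]
    simp [hE]
  have hpow : ∀ n : ℕ, E j * A ^ n = (θ j) ^ n • E j := by
    intro n
    induction n with
    | zero => simp
    | succ n ih =>
      rw [pow_succ, ← mul_assoc, ih, smul_mul_assoc, h1, smul_smul, pow_succ]
  induction p using Polynomial.induction_on' with
  | add p q hp hq => simp [mul_add, add_smul, hp, hq]
  | monomial n a =>
    rw [aeval_monomial, eval_monomial, Algebra.algebraMap_eq_smul_one, smul_mul_assoc, one_mul,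
      mul_smul_comm, hpow, smul_smul]

/-- In a Leonard system, for every `r ≤ d` and every set `L` of at most `d - r` indices, the
intersection of `E*_0 V + ... + E*_r V` and `∑_{j ∈ L} E_j V` is zero. -/
theorem result {K : Type*} [Field K] {d : ℕ} (A As : Matrix (Fin (d + 1)) (Fin (d + 1)) K)
    (E Es : Fin (d + 1) → Matrix (Fin (d + 1)) (Fin (d + 1)) K)
    (hL : IsLeonardSystem A As E Es) (r : ℕ) (hr : r ≤ d) (L : Finset (Fin (d + 1)))
    (hcard : L.card ≤ d - r) :
    (⨆ i : Fin (d + 1), ⨆ _ : i.val ≤ r, img (Es i)) ⊓ (⨆ j ∈ L, img (E j)) = ⊥ := by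
  classical
  obtain ⟨⟨θ, hθ, hEne, hE, hE1, hA⟩, ⟨θs, -, hEsne, hEs, hEs1, -⟩, -, htri⟩ := hL
  -- a nonzero vector of `E*_0 V`
  obtain ⟨w, hw⟩ : ∃ w, Es 0 *ᵥ w ≠ 0 := by
    by_contra hcon
    push Not at hcon
    apply hEsne 0
    ext a b
    have := congrFun (hcon (Pi.single b 1)) a
    simpa using this
  set v := Es 0 *ᵥ w with hv
  -- the Krylov vectors
  have hkry : ∀ k : ℕ, ∀ hk : k < d + 1,
      (∀ i : Fin (d + 1), k < i.val → Es i *ᵥ ((A ^ k) *ᵥ v) = 0) ∧
      Es ⟨k, hk⟩ *ᵥ ((A ^ k) *ᵥ v) ≠ 0 := by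
    intro k
    induction k with
    | zero =>
      intro hk
      refine ⟨?_, ?_⟩
      · intro i hi
        rw [pow_zero, one_mulVec, hv, idem_apply hEs, if_neg]
        rintro rfl
        simp at hi
      · have h0 : (⟨0, hk⟩ : Fin (d + 1)) = 0 := rfl
        rw [pow_zero, one_mulVec, hv, h0, idem_apply hEs, if_pos rfl]
        exact hw
    | succ k ih =>
      intro hk
      have hk' : k < d + 1 := by omega
      obtain ⟨ih1, ih2⟩ := ih hk'
      have hexp : ∀ i, Es i *ᵥ ((A ^ (k + 1)) *ᵥ v)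
          = ∑ j, (Es i * A * Es j) *ᵥ ((A ^ k) *ᵥ v) := by
        intro i
        have h1 : (A ^ (k + 1)) *ᵥ v = A *ᵥ ((A ^ k) *ᵥ v) := by
          rw [pow_succ', ← mulVec_mulVec]
        rw [h1]
        conv_lhs => rw [sum_apply hEs1 ((A ^ k) *ᵥ v)]
        rw [mulVec_sum, mulVec_sum]
        apply Finset.sum_congr rfl
        intro j _
        rw [mulVec_mulVec, mulVec_mulVec]
      refine ⟨?_, ?_⟩
      · intro i hi
        rw [hexp]
        apply Finset.sum_eq_zero
        intro j _
        rcases lt_or_ge k j.val with hj | hj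
        · rw [← mulVec_mulVec, ih1 j hj, mulVec_zero]
        · rw [(htri i j).1, zero_mulVec]
          rw [abs_of_pos] <;> omega
      · rw [hexp, Finset.sum_eq_single (⟨k, hk'⟩ : Fin (d + 1))]
        · intro hcon
          apply (htri ⟨k + 1, hk⟩ ⟨k, hk'⟩).2 (by simp)
          have hall : ∀ y, (Es ⟨k + 1, hk⟩ * A * Es ⟨k, hk'⟩) *ᵥ y = 0 := by
            intro y
            obtain ⟨c, hc⟩ := rank_one hEsne hEs ⟨k, hk'⟩ ((A ^ k) *ᵥ v) y ih2
            rw [← mulVec_mulVec, hc, mulVec_smul, mulVec_mulVec, hcon, smul_zero]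
          ext a b
          have := congrFun (hall (Pi.single b 1)) a
          simpa using this
        · intro j _ hj
          rcases lt_or_ge k j.val with hj' | hj'
          · rw [← mulVec_mulVec, ih1 j hj', mulVec_zero]
          · have hne : j.val ≠ k := fun h => hj (Fin.ext h)
            rw [(htri _ j).1, zero_mulVec]
            simp only
            rw [abs_of_pos] <;> omega
        · simp
  -- every vector of the partial sum is `p(A) v`
  have hpoly : ∀ k : ℕ, k < d + 1 → ∀ x : Fin (d + 1) → K,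
      (∀ i : Fin (d + 1), k < i.val → Es i *ᵥ x = 0) →
      ∃ p : K[X], p.natDegree ≤ k ∧ x = (aeval A p) *ᵥ v := by
    intro k
    induction k with
    | zero =>
      intro hk x hx
      have h0 := (hkry 0 hk).2
      rw [pow_zero, one_mulVec] at h0
      obtain ⟨c, hc⟩ := rank_one hEsne hEs ⟨0, hk⟩ v x h0
      refine ⟨C c, by simp, ?_⟩
      rw [aeval_C, Algebra.algebraMap_eq_smul_one, smul_mulVec, one_mulVec]
      have h1 : Es ⟨0, hk⟩ *ᵥ v = v := by
        have h00 : (⟨0, hk⟩ : Fin (d + 1)) = 0 := rfl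
        rw [h00, hv, idem_apply hEs, if_pos rfl]
      rw [h1] at hc
      rw [← hc]
      conv_lhs => rw [sum_apply hEs1 x]
      rw [Finset.sum_eq_single (⟨0, hk⟩ : Fin (d + 1))]
      · intro j _ hj
        apply hx
        rcases Nat.eq_zero_or_pos j.val with h | h
        · exact absurd (Fin.ext h) hj
        · exact h
      · simp
    | succ k ih =>
      intro hk x hx
      obtain ⟨h1, h2⟩ := hkry (k + 1) hk
      obtain ⟨c, hc⟩ := rank_one hEsne hEs ⟨k + 1, hk⟩ ((A ^ (k + 1)) *ᵥ v) x h2
      obtain ⟨p, hp, hpx⟩ := ih (by omega) (x - c • ((A ^ (k + 1)) *ᵥ v)) (by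
        intro i hi
        rw [mulVec_sub, mulVec_smul]
        rcases eq_or_ne i.val (k + 1) with h | h
        · have : i = ⟨k + 1, hk⟩ := Fin.ext h
          rw [this, hc, sub_self]
        · rw [hx i (by omega), h1 i (by omega)]
          simp)
      refine ⟨p + C c * X ^ (k + 1), ?_, ?_⟩
      · refine (natDegree_add_le _ _).trans (max_le (by omega) ?_)
        exact natDegree_C_mul_X_pow_le c (k + 1)
      · have h3 : aeval A (p + C c * X ^ (k + 1)) = aeval A p + c • A ^ (k + 1) := by
          simp [Algebra.smul_def]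
        rw [h3, add_mulVec, ← hpx, smul_mulVec]
        simp
  -- the components of `v` along the `E j` are nonzero
  have hEv : ∀ j, E j *ᵥ v ≠ 0 := by
    intro j hj
    apply hEne j
    have hall : ∀ y, E j *ᵥ y = 0 := by
      intro y
      obtain ⟨p, -, hp⟩ := hpoly d (by omega) y (by intro i hi; omega)
      rw [hp, mulVec_mulVec, aeval_left hE hA, smul_mulVec, hj, smul_zero]
    ext a b
    have := congrFun (hall (Pi.single b 1)) a
    simpa using this
  -- conclusion
  rw [eq_bot_iff]
  intro x hx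
  obtain ⟨hx1, hx2⟩ := hx
  have hx1' : ∀ i : Fin (d + 1), r < i.val → Es i *ᵥ x = 0 := by
    intro i hi
    have hle : (⨆ i : Fin (d + 1), ⨆ _ : i.val ≤ r, img (Es i))
        ≤ LinearMap.ker (Es i).mulVecLin := by
      refine iSup₂_le ?_
      rintro j hj y ⟨z, rfl⟩
      rw [LinearMap.mem_ker, mulVecLin_apply, mulVecLin_apply, idem_apply hEs, if_neg]
      rintro rfl
      omega
    have := hle hx1
    rwa [LinearMap.mem_ker, mulVecLin_apply] at this
  have hx2' : ∀ j : Fin (d + 1), j ∉ L → E j *ᵥ x = 0 := by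
    intro i hi
    have hle : (⨆ j ∈ L, img (E j)) ≤ LinearMap.ker (E i).mulVecLin := by
      refine iSup₂_le ?_
      rintro j hj y ⟨z, rfl⟩
      rw [LinearMap.mem_ker, mulVecLin_apply, mulVecLin_apply, idem_apply hE, if_neg]
      rintro rfl
      exact hi hj
    have := hle hx2
    rwa [LinearMap.mem_ker, mulVecLin_apply] at this
  obtain ⟨p, hp, hpx⟩ := hpoly r (by omega) x hx1'
  have hroot : ∀ j ∈ Lᶜ, p.eval (θ j) = 0 := by
    intro j hj
    have h1 := hx2' j (Finset.mem_compl.mp hj)
    rw [hpx, mulVec_mulVec, aeval_left hE hA, smul_mulVec] at h1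
    exact (smul_eq_zero.mp h1).resolve_right (hEv j)
  have hp0 : p = 0 := by
    apply Polynomial.eq_zero_of_natDegree_lt_card_of_eval_eq_zero' p ((Lᶜ).image θ)
    · intro y hy
      obtain ⟨j, hj, rfl⟩ := Finset.mem_image.mp hy
      exact hroot j hj
    · rw [Finset.card_image_of_injective _ hθ, Finset.card_compl, Fintype.card_fin]
      omega
  rw [hp0] at hpx
  simp only [map_zero, zero_mulVec] at hpx
  exact hpx

end Pool.Agent.Results.MP_105763_al.ZeroInter
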